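import Pool.Agent.W601.RP.Stm2

set_option autoImplicit false
open scoped Classical

namespace Pool.Agent.W750.RP

open Pool.Agent.W601.RP

noncomputable section

/-- pairing with zero. -/
theorem pz_zero {n : ℕ} (z : Gm n) : pz z (0 : ℕ → TT) = 0 := by
  unfold pz
  simp

/-- pairing with a negative. -/
theorem pz_neg (hp : S_PZ) {n : ℕ} (z : Gm n) (h : ℕ → TT) : pz z (-h) = - pz z h := by
  have := hp.2.1 n h (-h) z
  rw [add_neg_cancel, pz_zero] at this
  exact (neg_eq_of_add_eq_zero_right this.symm).symm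

/-- the character. -/
def chi (hp : S_PZ) {n : ℕ} (z : Gm n) : Multiplicative ↥H →* ℂ where
  toFun g := ((AddCircle.toCircle (pz z ((Multiplicative.toAdd g : ↥H) : ℕ → TT)) : Circle) : ℂ)
  map_one' := by
    have : ((Multiplicative.toAdd (1 : Multiplicative ↥H) : ↥H) : ℕ → TT) = 0 := by
      rw [toAdd_one]; rfl
    rw [this, pz_zero, AddCircle.toCircle_zero]
    simp
  map_mul' a b := by
    rw [toAdd_mul, AddSubgroup.coe_add, hp.2.1, AddCircle.toCircle_add]
    simp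

/-- the evaluation homomorphism. -/
def ev (hp : S_PZ) {n : ℕ} (z : Gm n) : AddMonoidAlgebra ℂ ↥H →ₐ[ℂ] ℂ :=
  AddMonoidAlgebra.lift ℂ ℂ ↥H (chi hp z)

/-- the weight element. -/
def wel (h : ↥H) : AddMonoidAlgebra ℂ ↥H :=
  AddMonoidAlgebra.single 0 (1 / 2) + AddMonoidAlgebra.single h (1 / 4) +
    AddMonoidAlgebra.single (-h) (1 / 4)

theorem ww_eq (y : TT) : ((ww y : ℝ) : ℂ) =
    1 / 2 + 1 / 4 * ((AddCircle.toCircle y : Circle) : ℂ) +
      1 / 4 * ((AddCircle.toCircle (-y) : Circle) : ℂ) := by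
  unfold ww
  push_cast
  rw [Complex.re_eq_add_conj, AddCircle.toCircle_neg, Circle.coe_inv_eq_conj]
  ring

theorem ev_wel (hp : S_PZ) {n : ℕ} (z : Gm n) (h : ↥H) :
    ev hp z (wel h) = ((ww (pz z (h : ℕ → TT)) : ℝ) : ℂ) := by
  rw [ww_eq]
  unfold ev wel
  rw [map_add, map_add, AddMonoidAlgebra.lift_single, AddMonoidAlgebra.lift_single,
    AddMonoidAlgebra.lift_single]
  have h0 : chi hp z (Multiplicative.ofAdd (0 : ↥H)) = 1 := map_one _
  have h1 : chi hp z (Multiplicative.ofAdd h) =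
      ((AddCircle.toCircle (pz z (h : ℕ → TT)) : Circle) : ℂ) := rfl
  have h2 : chi hp z (Multiplicative.ofAdd (-h)) =
      ((AddCircle.toCircle (- pz z (h : ℕ → TT)) : Circle) : ℂ) := by
    rw [← pz_neg hp]
    rfl
  rw [h0, h1, h2]
  simp [smul_eq_mul]

theorem d4 : S_PZ → S_D4 := by
  intro hp F m hF
  set φ : AddMonoidAlgebra ℂ ↥H := (∏ h ∈ F.attach, wel ⟨h.1, hF h.1 h.2⟩) ^ m with hφ
  refine ⟨φ.coeff.support.map ⟨Subtype.val, Subtype.val_injective⟩,
    fun g => if hg : g ∈ H then φ.coeff ⟨g, hg⟩ else 0, ?_, ?_⟩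
  · intro g hg
    rw [Finset.mem_map] at hg
    obtain ⟨a, _, rfl⟩ := hg
    exact a.2
  · intro n z
    have h1 : ev hp z φ = (((∏ h ∈ F, ww (pz z h)) ^ m : ℝ) : ℂ) := by
      rw [hφ, map_pow, map_prod]
      push_cast
      congr 1
      rw [← Finset.prod_attach F]
      exact Finset.prod_congr rfl fun h _ => ev_wel hp z _
    rw [← h1]
    unfold ev
    rw [AddMonoidAlgebra.lift_apply, Finset.sum_map, Finsupp.sum]
    refine Finset.sum_congr rfl fun a _ => ?_
    have ha : ((⟨Subtype.val, Subtype.val_injective⟩ : ↥H ↪ (ℕ → TT)) a) = (a : ℕ → TT) := rfl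
    have hc : (fun g : ℕ → TT => if hg : g ∈ H then φ.coeff ⟨g, hg⟩ else 0) (a : ℕ → TT) =
        φ.coeff a := dif_pos a.2
    have hx : chi hp z (Multiplicative.ofAdd a) =
        ((AddCircle.toCircle (pz z (a : ℕ → TT)) : Circle) : ℂ) := rfl
    rw [ha, hc, smul_eq_mul, hx]

end

end Pool.Agent.W750.RP
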